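import Pool.Agent.H167Z.BP.Seven

namespace Pool.Agent.Results.MP_266831_co.AAsym

open Pool.Agent.H167Z.BP

theorem result : ∀ p : ℕ, 6 ≤ p → p ≤ 8 → Filter.Tendsto
    (fun q : ℕ => ((cr2p (completeBipartiteGraph (Fin p) (Fin q))).toNat : ℝ) / (q : ℝ) ^ 2)
    Filter.atTop (nhds (((p : ℝ) - 4) ^ 2 / (8 * ((p : ℝ) - 2)))) := by
  intro p h1 h2
  simp only [cr2p_eq]
  interval_cases p
  · convert asym6 using 2; norm_num
  · convert asym7 using 2; norm_num
  · convert asym8 using 2; norm_num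

end Pool.Agent.Results.MP_266831_co.AAsym
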