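import Pool.Agent.H167Z.BP.Bip

namespace Pool.Agent.Results.MP_266831_co.BLower

open Pool.Agent.H167Z.BP

theorem result : ∀ p q k : ℕ, 4 ≤ p →
    ((k * (p - 4) * q - 2 * (p - 2) * (k * (k + 1)) : ℕ) : ℕ∞) ≤
      cr2 (completeBipartiteGraph (Fin p) (Fin q)) := by
  intro p q k hp
  obtain ⟨r, rfl⟩ : ∃ r, p = r + 3 + 1 := ⟨p - 4, by omega⟩
  rcases le_total (k * (r + 3 + 1 - 4) * q) (2 * (r + 3 + 1 - 2) * (k * (k + 1))) with h | h
  · rw [Nat.sub_eq_zero_of_le h]; exact zero_le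
  refine cr2_lower (n := r + 3) (by omega) k _ ?_
  rw [show r + 3 + 1 - 2 = r + 3 - 1 by omega] at h ⊢
  rw [Nat.sub_add_cancel h, show r + 3 + 1 - 4 = r by omega]
  apply le_of_eq; ring

end Pool.Agent.Results.MP_266831_co.BLower
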